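import Pool.Agent.Run7.h638.WR.FIN
import Pool.Agent.Run7.h361.WR.N2
import Pool.Agent.Run7.h404.WR.C2
import Pool.Agent.Run7.h404.WR.C3
import Pool.Agent.Run7.h547.WR.QA
import Pool.Agent.Run7.h547.WR.QD
import Pool.Agent.Run7.h547.WR.QP
import Pool.Agent.Run7.h547.WR.QQ
import Pool.Agent.Run7.h547.WR.QW
import Pool.Agent.Run7.h638.WR.C5
import Pool.Agent.Run7.h638.WR.NF
import Pool.Agent.Run7.h638.WR.O2
import Pool.Agent.Run7.h638.WR.QF
import Pool.Agent.Run7.h638.WR.RK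
import Pool.Agent.Run7.h638.WR.RR
import Pool.Agent.Run7.h638.WR.SMB
import Pool.Agent.Run7.h784.WR.RF
import Pool.Agent.Run7.h799.WR.O
import Pool.Agent.Run7.h842.WR.YB
import Pool.Agent.Run7.h842.WR.YD
import Pool.Agent.Run7.h842.WR.YH
import Pool.Agent.Run7.h930.WR.N1
import Pool.Agent.Run7.h930.WR.QS
import Pool.Agent.Run7.h936.WR.C1
import Pool.Agent.Run7.h936.WR.C4
import Pool.Agent.Run7.h973.WR.SRCH
import Pool.Agent.Run7.h973.WR.YC
import Pool.Agent.Run7.h99.WR.SMA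

/-!
# Representability by weakening relations is undecidable (MP_5885b3_lc, Q1)

Authors of the pieces: helper361, helper404, helper547, helper638, helper784, helper799, helper842,
helper930, helper936, helper973, helper984, helper99.  The universal machine is the one of
Pool.Agent.H662R2.SM.
-/

set_option autoImplicit false

universe u

namespace Pool.Agent.Results.MP_5885b3_lc.Undecidable

open Pool.Agent.Run7.h638.WR

theorem result :
    (¬ ComputablePred RepCode.{u}) ∧ (¬ ComputablePred FinRepCode.{u}) ∧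
    (∀ D : Code → Prop, (∀ x, FinRepCode.{u} x → D x) → (∀ x, D x → RepCode.{u} x) →
      ¬ ComputablePred D) ∧
    ∀ (n : ℕ) (f : Fin (n + 1) → Fin (n + 1) → Fin (n + 1)), ∃ l, op n l = f := by
  have quad : QUAD.{u} := Pool.Agent.Run7.h638.WR.t_QF Pool.Agent.Run7.h547.WR.t_QA Run7.h930.WR.t_QS Pool.Agent.Run7.h547.WR.t_QD Pool.Agent.Run7.h547.WR.t_QP Pool.Agent.Run7.h547.WR.t_QQ Pool.Agent.Run7.h547.WR.t_QW
  have rep : REP := Pool.Agent.Run7.h784.WR.t_RF Pool.Agent.Run7.h638.WR.t_RR Pool.Agent.Run7.h638.WR.t_RK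
  have hc : Computable code := Pool.Agent.Run7.h936.WR.t_C4 Pool.Agent.Run7.h936.WR.t_C1 Pool.Agent.Run7.h404.WR.t_C2 Pool.Agent.Run7.h404.WR.t_C3
  have no : NO := Pool.Agent.Run7.h638.WR.t_NF Run7.h930.WR.t_N1 Pool.Agent.Run7.h638.WR.t_N2 Pool.Agent.Run7.h973.WR.t_N3
  have yes : YES := Run7.h842.WR.t_YD Pool.Agent.Run7.h973.WR.t_YA Run7.h842.WR.t_YB Run7.h842.WR.t_YH Pool.Agent.Run7.h973.WR.t_YC
  have simp' : SIMP := Pool.Agent.Run7.h638.WR.t_SMB Pool.Agent.Run7.h638.WR.t_SMA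
  have okc : OKC := Pool.Agent.Run7.h799.WR.t_O3 Pool.Agent.Run7.h799.WR.t_O1 Pool.Agent.Run7.h638.WR.O2c.t_O2
  have key : ∀ D : Code → Prop, (∀ x, FinRepCode.{u} x → D x) → (∀ x, D x → RepCode.{u} x) →
      ¬ ComputablePred D := by
    intro D h1 h2 hD
    refine core.{u} quad rep Pool.Agent.Run7.h404.WR.t_C3 hc no yes simp' okc Pool.Agent.Run7.h973.WR.t_SRCH D hD ?_ ?_
    · intro Q hQ
      exact h1 _ (((Pool.Agent.Run7.h638.WR.C5c.t_C5 Pool.Agent.Run7.h936.WR.t_C1 Q).2).2 (finRep_lift hQ))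
    · intro Q hQ
      exact ((Pool.Agent.Run7.h638.WR.C5c.t_C5 Pool.Agent.Run7.h936.WR.t_C1 Q).1).1 (h2 _ hQ)
  exact ⟨key _ (fun x hx => finRep_rep hx) (fun x hx => hx),
    key _ (fun x hx => hx) (fun x hx => finRep_rep hx), key, op_surj⟩

end Pool.Agent.Results.MP_5885b3_lc.Undecidable
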